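import Pool.Agent.AvoidPath.Step

/-!
Tools for shift sequences: closing an extension through a given set of free vertices, moves away
from a vertex, the boundary property, and sequences of shifts inside a vertex set.
-/

namespace Pool.Agent.Helper4AV

open Finset Classical Pool.Agent.AvoidPath

set_option linter.unusedSectionVars false

variable {V : Type} [Fintype V]

/-- the vertices of `A` outside `R` and without neighbour in `R` -/
noncomputable def sub (E : V → V → Prop) (A R : Finset V) : Finset V :=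
  A.filter (fun v => v ∉ R ∧ ∀ u ∈ R, ¬ E v u)

theorem mem_sub (E : V → V → Prop) (A R : Finset V) (v : V) :
    v ∈ sub E A R ↔ v ∈ A ∧ v ∉ R ∧ ∀ u ∈ R, ¬ E v u := by
  unfold sub
  simp

theorem sub_subset (E : V → V → Prop) (A R : Finset V) : sub E A R ⊆ A :=
  Finset.filter_subset _ _

/-- every extension of `l` inside `A` lies on an induced cycle inside `A` -/
def GoodIn (E : V → V → Prop) (A : Finset V) (l : List V) : Prop :=
  ∀ x y, x ∈ A → y ∈ A → IndPath E (x :: (l ++ [y])) →
    ∃ o, IndCycle E o ∧ (∀ v ∈ o, v ∈ A) ∧ ∀ v ∈ x :: (l ++ [y]), v ∈ o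

/-- `n` shifts inside `A` -/
inductive Rch (E : V → V → Prop) (A : Finset V) : ℕ → List V → List V → Prop
  | refl (l : List V) : Rch E A 0 l l
  | step (n : ℕ) (l l' l'' : List V) : Shift E l l' → IndPath E l' → (∀ v ∈ l', v ∈ A) →
      Rch E A n l' l'' → Rch E A (n + 1) l l''

theorem Rch.mono {E : V → V → Prop} {A B : Finset V} (hAB : A ⊆ B) {n : ℕ} {l l' : List V}
    (h : Rch E A n l l') : Rch E B n l l' := by
  induction h with
  | refl l => exact Rch.refl l
  | step n l l' l'' h1 h2 h3 _ ih => exact Rch.step n l l' l'' h1 h2 (fun v hv => hAB (h3 v hv)) ih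

theorem Rch.trans {E : V → V → Prop} {A : Finset V} {n m : ℕ} {l l' l'' : List V}
    (h : Rch E A n l l') (h2 : Rch E A m l' l'') : Rch E A (n + m) l l'' := by
  induction h with
  | refl l => simpa using h2
  | step n l l' l''' h1 h3 h4 _ ih =>
    have := Rch.step (n + m) l l' l'' h1 h3 h4 (ih h2)
    have e : n + m + 1 = n + 1 + m := by omega
    rw [e] at this
    exact this

theorem shift_length {E : V → V → Prop} {l l' : List V} (h : Shift E l l') :
    l'.length = l.length := by
  obtain ⟨q, _, h⟩ := h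
  rcases h with ⟨rfl, rfl⟩ | ⟨rfl, rfl⟩ <;> simp

theorem Rch.length {E : V → V → Prop} {A : Finset V} {n : ℕ} {l l' : List V}
    (h : Rch E A n l l') : l'.length = l.length := by
  induction h with
  | refl l => rfl
  | step n l l' l'' h1 _ _ _ ih => rw [ih, shift_length h1]

theorem Rch.ind {E : V → V → Prop} {A : Finset V} {n : ℕ} {l l' : List V}
    (h : Rch E A n l l') (hl : IndPath E l) (hA : ∀ v ∈ l, v ∈ A) :
    IndPath E l' ∧ ∀ v ∈ l', v ∈ A := by
  induction h with
  | refl l => exact ⟨hl, hA⟩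
  | step n l l' l'' _ h2 h3 _ ih => exact ih h2 h3

theorem Rch.single {E : V → V → Prop} {A : Finset V} {l l' : List V}
    (h1 : Shift E l l') (h2 : IndPath E l') (h3 : ∀ v ∈ l', v ∈ A) : Rch E A 1 l l' :=
  Rch.step 0 l l' l' h1 h2 h3 (Rch.refl l')

theorem Rch.toSeq {E : V → V → Prop} {A : Finset V} {n : ℕ} {l l' : List V}
    (h : Rch E A n l l') : ShiftSeq E n l l' := by
  induction h with
  | refl l => exact ⟨fun _ => l, rfl, rfl, fun i hi => absurd hi (Nat.not_lt_zero i)⟩
  | step n l l' l'' h1 _ _ _ ih =>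
    obtain ⟨f, hf0, hfm, hf⟩ := ih
    refine ⟨fun i => if i = 0 then l else f (i - 1), by simp, by simp [hfm], ?_⟩
    intro i hi
    by_cases h0 : i = 0
    · subst h0
      simp only [if_true, Nat.zero_add, one_ne_zero, if_false, Nat.sub_self]
      rw [hf0]
      exact h1
    · have h6 : ¬ i + 1 = 0 := by omega
      simp only [h0, h6, if_false]
      have h7 := hf (i - 1) (by omega)
      have h8 : i - 1 + 1 = i + 1 - 1 := by omega
      rw [h8] at h7
      exact h7

/-- the closing lemma, through a set `F` of vertices that are free from the path -/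
theorem closableF (E : V → V → Prop) (hE : ∀ a b, E a b → E b a) (F : Finset V) (l : List V)
    (hl : l ≠ []) (hF0 : ∀ v ∈ F, ¬ E v v ∧ ∀ p ∈ l, v ≠ p ∧ ¬ E v p)
    (x y : V) (h : IndPath E (x :: (l ++ [y]))) (z w : V) (hz : z ∈ F)
    (hw : w ∈ comp E F z) (hzx : E z x) (hwy : E w y) :
    ∃ o, IndCycle E o ∧ (∀ v ∈ o, v ∈ x :: (l ++ [y]) ∨ v ∈ F) ∧
      ∀ v ∈ x :: (l ++ [y]), v ∈ o := by
  obtain ⟨_, hnd, hadj⟩ := h
  set Q := x :: (l ++ [y]) with hQ
  have hlen : Q.length = l.length + 2 := by simp [hQ]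
  have hlpos : 0 < l.length := List.length_pos_iff.mpr hl
  have hQ0 : Q[0]'(by omega) = x := by simp [hQ]
  have hQl : Q[l.length + 1]'(by omega) = y := by simp [hQ]
  have hQm : ∀ i (hi : i < Q.length), 0 < i → i < l.length + 1 → Q[i] ∈ l := by
    intro i hi h0 h1
    obtain ⟨i', rfl⟩ : ∃ i', i = i' + 1 := ⟨i - 1, by omega⟩
    have : Q[i' + 1] = l[i']'(by omega) := by
      simp only [hQ, List.getElem_cons_succ]
      rw [List.getElem_append_left (by omega)]
    rw [this]
    exact List.getElem_mem _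
  have hxy : x ≠ y := by
    intro hxy
    have h1 : Q[0]'(by omega) = Q[l.length + 1]'(by omega) := by rw [hQ0, hQl, hxy]
    have h2 := (List.Nodup.getElem_inj_iff hnd).mp h1
    omega
  have hQ1 : Q[1]'(by omega) ∈ l := hQm 1 (by omega) (by omega) (by omega)
  have hQ2 : Q[l.length]'(by omega) ∈ l := hQm _ (by omega) (by omega) (by omega)
  have hxF : x ∉ F := by
    intro hx
    have hx := hF0 x hx
    apply (hx.2 _ hQ1).2
    have h1 := (hadj 0 1 (by omega) (by omega)).mpr (Or.inl rfl)
    rw [hQ0] at h1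
    exact h1
  have hyF : y ∉ F := by
    intro hy
    have hy := hF0 y hy
    apply (hy.2 _ hQ2).2
    have h1 := (hadj (l.length + 1) l.length (by omega) (by omega)).mpr (Or.inr rfl)
    rw [hQl] at h1
    exact h1
  have hnE : ¬ E y x := by
    intro hc
    have h1 : E (Q[l.length + 1]'(by omega)) (Q[0]'(by omega)) := by
      rw [hQ0, hQl]; exact hc
    have := (hadj (l.length + 1) 0 (by omega) (by omega)).mp h1
    omega
  obtain ⟨r, f, hf0, hfr, hr, hF, hA, hch, hinj⟩ := chn_min E F x y hxy hxF hyF hnE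
    (chn_exists E hE F x y z w hz hw hzx hwy)
  set R : List V := List.ofFn (fun t : Fin r => f ((t : ℕ) + 1)) with hR
  have hRlen : R.length = r := by simp [hR]
  have hRget : ∀ t (ht : t < R.length), R[t] = f (t + 1) := by
    intro t ht
    simp [hR]
  have hRF : ∀ v ∈ R, v ∈ F := by
    intro v hv
    obtain ⟨t, ht, rfl⟩ := List.getElem_of_mem hv
    rw [hRget t ht]
    exact hF _ (by omega) (by omega)
  refine ⟨Q ++ R, ⟨?_, ?_, ?_⟩, ?_, ?_⟩
  · rw [List.length_append]; omega
  · rw [List.nodup_append]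
    refine ⟨hnd, ?_, ?_⟩
    · rw [List.nodup_iff_injective_getElem]
      rintro ⟨s, hs⟩ ⟨t, ht⟩ hst
      simp only at hst
      rw [hRget s hs, hRget t ht] at hst
      rcases lt_trichotomy s t with h1 | h1 | h1
      · exact absurd hst (hinj _ _ (by omega) (by omega))
      · exact Fin.ext h1
      · exact absurd hst.symm (hinj _ _ (by omega) (by omega))
    · intro a ha b hb hab
      subst hab
      have hb' := hRF _ hb
      rcases List.mem_cons.mp ha with rfl | ha
      · exact hxF hb'
      · rcases List.mem_append.mp ha with ha | ha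
        · exact (hF0 a hb').2 a ha |>.1 rfl
        · rw [List.mem_singleton] at ha
          subst ha
          exact hyF hb'
  · -- cross adjacencies
    have hcross : ∀ i t (hi : i < Q.length) (ht : t < R.length),
        E Q[i] R[t] ↔ ((i = 0 ∧ t + 1 = r) ∨ (i = l.length + 1 ∧ t = 0)) := by
      intro i t hi ht
      rw [hRget t ht]
      constructor
      · intro hc
        by_cases h0 : i = 0
        · subst h0
          rw [hQ0, ← hfr] at hc
          have := hch (t + 1) (r + 1) (by omega) (le_refl _) (hE _ _ hc)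
          left
          exact ⟨rfl, by omega⟩
        · by_cases h1 : i = l.length + 1
          · subst h1
            rw [hQl, ← hf0] at hc
            have := hch 0 (t + 1) (by omega) (by omega) hc
            right
            exact ⟨rfl, by omega⟩
          · exfalso
            have h2 := hQm i hi (by omega) (by omega)
            have h3 := hF0 _ (hF (t + 1) (by omega) (by omega))
            exact (h3.2 _ h2).2 (hE _ _ hc)
      · rintro (⟨rfl, h1⟩ | ⟨rfl, rfl⟩)
        · rw [hQ0, ← hfr, h1]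
          exact hE _ _ (hA r (le_refl _))
        · rw [hQl, ← hf0]
          exact hA 0 (by omega)
    have hRR : ∀ s t (hs : s < R.length) (ht : t < R.length),
        E R[s] R[t] ↔ (t = s + 1 ∨ s = t + 1) := by
      intro s t hs ht
      rw [hRget s hs, hRget t ht]
      constructor
      · intro hc
        rcases lt_trichotomy s t with h1 | h1 | h1
        · have := hch (s + 1) (t + 1) (by omega) (by omega) hc
          left; omega
        · subst h1
          exact absurd hc (hF0 _ (hF (s + 1) (by omega) (by omega))).1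
        · have := hch (t + 1) (s + 1) (by omega) (by omega) (hE _ _ hc)
          right; omega
      · rintro (rfl | rfl)
        · exact hA _ (by omega)
        · exact hE _ _ (hA _ (by omega))
    intro i j hi hj
    rw [List.length_append] at hi hj
    by_cases h1 : i < Q.length
    · by_cases h2 : j < Q.length
      · rw [List.getElem_append_left h1, List.getElem_append_left h2, hadj i j h1 h2,
          List.length_append]
        omega
      · rw [List.getElem_append_left h1, List.getElem_append_right (by omega),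
          hcross i (j - Q.length) h1 (by omega), List.length_append]
        omega
    · by_cases h2 : j < Q.length
      · rw [List.getElem_append_right (by omega), List.getElem_append_left h2,
          List.length_append]
        have h3 := hcross j (i - Q.length) h2 (by omega)
        constructor
        · intro hc
          have := h3.mp (hE _ _ hc)
          omega
        · intro hc
          apply hE
          apply h3.mpr
          omega
      · rw [List.getElem_append_right (by omega), List.getElem_append_right (by omega),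
          hRR (i - Q.length) (j - Q.length) (by omega) (by omega), List.length_append]
        omega
  · intro v hv
    rcases List.mem_append.mp hv with hv | hv
    · exact Or.inl hv
    · exact Or.inr (hRF v hv)
  · intro v hv
    exact List.mem_append.mpr (Or.inl hv)

/-- the shift that drops the first vertex and adds `y` at the end -/
theorem moveR (E : V → V → Prop) (l : List V) (hl : l ≠ []) (x y : V)
    (h : IndPath E (x :: (l ++ [y]))) :
    IndPath E (l.tail ++ [y]) ∧ Shift E l (l.tail ++ [y]) ∧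
      (∀ v ∈ l.tail ++ [y], v = y ∨ v ∈ l) ∧ (∀ v ∈ l.tail ++ [y], x ≠ v ∧ ¬ E x v) := by
  obtain ⟨p, l₀, rfl⟩ : ∃ p l₀, l = p :: l₀ := List.exists_cons_of_ne_nil hl
  have hq : IndPath E ((p :: l₀) ++ [y]) := indPath_tail E x _ (by simp) h
  have hl' : IndPath E (l₀ ++ [y]) := indPath_tail E p _ (by simp) (by simpa using hq)
  obtain ⟨_, hnd, hadj⟩ := h
  refine ⟨hl', ⟨(p :: l₀) ++ [y], hq, Or.inl ⟨by rw [List.dropLast_concat], by simp⟩⟩, ?_, ?_⟩
  · intro v hv
    rcases List.mem_append.mp hv with hv | hv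
    · exact Or.inr (List.mem_of_mem_tail hv)
    · exact Or.inl (List.mem_singleton.mp hv)
  · intro v hv
    have hv : v ∈ l₀ ++ [y] := hv
    obtain ⟨i, hi, rfl⟩ := List.getElem_of_mem hv
    have hlen : (x :: (p :: l₀ ++ [y])).length = (l₀ ++ [y]).length + 2 := by simp
    have e : (x :: (p :: l₀ ++ [y]))[i + 2]'(by omega) = (l₀ ++ [y])[i] := by
      simp
    constructor
    · intro hc
      have h1 : (x :: (p :: l₀ ++ [y]))[0]'(by omega) =
          (x :: (p :: l₀ ++ [y]))[i + 2]'(by omega) := by rw [e]; exact hc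
      have h2 := (List.Nodup.getElem_inj_iff hnd).mp h1
      omega
    · intro hc
      have h1 : E ((x :: (p :: l₀ ++ [y]))[0]'(by omega))
          ((x :: (p :: l₀ ++ [y]))[i + 2]'(by omega)) := by rw [e]; exact hc
      have h2 := (hadj _ _ _ _).mp h1
      omega

/-- the shift that drops the last vertex and adds `x` in front -/
theorem moveL (E : V → V → Prop) (l : List V) (hl : l ≠ []) (x y : V)
    (h : IndPath E (x :: (l ++ [y]))) :
    ∃ l', IndPath E l' ∧ Shift E l l' ∧
      (∀ v ∈ l', v = x ∨ v ∈ l) ∧ (∀ v ∈ l', y ≠ v ∧ ¬ E y v) := by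
  have hrev : IndPath E (y :: (l.reverse ++ [x])) := by
    have := indPath_reverse E _ h
    simpa using this
  obtain ⟨h1, h2, h3, h4⟩ := moveR E l.reverse (by simpa using hl) y x hrev
  refine ⟨(l.reverse.tail ++ [x]).reverse, indPath_reverse E _ h1, ?_, ?_, ?_⟩
  · have := shift_reverse E _ _ h2
    simpa using this
  · intro v hv
    have := h3 v (List.mem_reverse.mp hv)
    simpa using this
  · intro v hv
    exact h4 v (List.mem_reverse.mp hv)

/-- the two end vertices of an extension are adjacent to the path -/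
theorem ends_adj (E : V → V → Prop) (l : List V) (hl : l ≠ []) (x y : V)
    (h : IndPath E (x :: (l ++ [y]))) : (∃ p ∈ l, E p x) ∧ (∃ p ∈ l, E p y) := by
  obtain ⟨_, hnd, hadj⟩ := h
  have hlpos : 0 < l.length := List.length_pos_iff.mpr hl
  have hlen : (x :: (l ++ [y])).length = l.length + 2 := by simp
  refine ⟨⟨l[0]'hlpos, List.getElem_mem _, ?_⟩, ⟨l[l.length - 1]'(by omega), List.getElem_mem _, ?_⟩⟩
  · have h1 := (hadj 1 0 (by omega) (by omega)).mpr (Or.inr rfl)
    have e : (x :: (l ++ [y]))[1]'(by omega) = l[0]'hlpos := by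
      simp only [List.getElem_cons_succ]
      rw [List.getElem_append_left hlpos]
    rw [e] at h1
    simpa using h1
  · obtain ⟨i, hi⟩ : ∃ i, l.length = i + 1 := ⟨l.length - 1, by omega⟩
    have h1 := (hadj (i + 1) (i + 2) (by omega) (by omega)).mpr (Or.inl rfl)
    have e1 : (x :: (l ++ [y]))[i + 1]'(by omega) = l[i]'(by omega) := by
      simp only [List.getElem_cons_succ]
      rw [List.getElem_append_left (by omega)]
    have e2 : (x :: (l ++ [y]))[i + 2]'(by omega) = y := by
      simp only [List.getElem_cons_succ]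
      rw [List.getElem_append_right (by omega)]
      simp
    rw [e1, e2] at h1
    have e3 : l[l.length - 1]'(by omega) = l[i]'(by omega) := by
      congr 1
      omega
    rw [e3]
    exact h1

/-- boundary property: any two vertices of `A` outside `R` with a neighbour in `R` have a
neighbour in a common component of `R` -/
def PP (E : V → V → Prop) (A R : Finset V) : Prop :=
  ∀ x ∈ A, ∀ y ∈ A, x ∉ R → y ∉ R → (∃ u ∈ R, E x u) → (∃ v ∈ R, E y v) →
    ∃ u ∈ R, ∃ v ∈ comp E R u, E u x ∧ E v y

theorem comp_mono (E : V → V → Prop) {R R' : Finset V} (h : R ⊆ R') (u : V) :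
    comp E R u ⊆ comp E R' u := by
  apply comp_sub
  intro w hw
  exact h (Finset.mem_filter.mp hw).1

theorem comp_trans (E : V → V → Prop) {R : Finset V} {u v w : V}
    (h1 : v ∈ comp E R u) (h2 : w ∈ comp E R v) : w ∈ comp E R u := by
  have h1' := Finset.mem_filter.mp h1
  have h2' := Finset.mem_filter.mp h2
  exact Finset.mem_filter.mpr ⟨h2'.1, h1'.2.trans h2'.2⟩

theorem comp_adj (E : V → V → Prop) {R : Finset V} {u v : V} (hu : u ∈ R) (hv : v ∈ R)
    (h : E u v) : v ∈ comp E R u :=
  Finset.mem_filter.mpr ⟨hv, Relation.ReflTransGen.single ⟨hu, hv, h⟩⟩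

theorem pp_insert (E : V → V → Prop) (hE : ∀ a b, E a b → E b a) (A R : Finset V)
    (hP : PP E A R) (w : V) (hw : w ∈ A) (hwR : w ∉ R) (hwu : ∃ u ∈ R, E w u) :
    PP E A (insert w R) := by
  have hsub : R ⊆ insert w R := Finset.subset_insert _ _
  have hwm : w ∈ insert w R := Finset.mem_insert_self _ _
  intro x hx y hy hxR hyR hxu hyv
  have hxR' : x ∉ R := fun h => hxR (hsub h)
  have hyR' : y ∉ R := fun h => hyR (hsub h)
  by_cases h1 : ∃ u ∈ R, E x u
  · by_cases h2 : ∃ u ∈ R, E y u
    · obtain ⟨u, hu, v, hv, h3, h4⟩ := hP x hx y hy hxR' hyR' h1 h2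
      exact ⟨u, hsub hu, v, comp_mono E hsub u hv, h3, h4⟩
    · have hyw : E y w := by
        obtain ⟨v, hv, hyv⟩ := hyv
        rcases Finset.mem_insert.mp hv with rfl | hv
        · exact hyv
        · exact absurd ⟨v, hv, hyv⟩ h2
      obtain ⟨u, hu, v, hv, h3, h4⟩ := hP x hx w hw hxR' hwR h1 hwu
      refine ⟨u, hsub hu, w, ?_, h3, hE _ _ hyw⟩
      have hvR := (Finset.mem_filter.mp hv).1
      exact comp_trans E (comp_mono E hsub u hv) (comp_adj E (hsub hvR) hwm h4)
  · have hxw : E x w := by
      obtain ⟨v, hv, hxv⟩ := hxu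
      rcases Finset.mem_insert.mp hv with rfl | hv
      · exact hxv
      · exact absurd ⟨v, hv, hxv⟩ h1
    by_cases h2 : ∃ u ∈ R, E y u
    · obtain ⟨u, hu, v, hv, h3, h4⟩ := hP w hw y hy hwR hyR' hwu h2
      refine ⟨w, hwm, v, ?_, hE _ _ hxw, h4⟩
      exact comp_trans E (comp_adj E hwm (hsub hu) (hE _ _ h3)) (comp_mono E hsub u hv)
    · have hyw : E y w := by
        obtain ⟨v, hv, hyv⟩ := hyv
        rcases Finset.mem_insert.mp hv with rfl | hv
        · exact hyv
        · exact absurd ⟨v, hv, hyv⟩ h2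
      exact ⟨w, hwm, w, mem_comp_self E _ hwm, hE _ _ hxw, hE _ _ hyw⟩

theorem pp_build (E : V → V → Prop) (hE : ∀ a b, E a b → E b a) (A R S : Finset V)
    (hS : ∀ a ∈ S, ∀ b ∈ S, b ∈ comp E S a)
    (hb : ∀ x ∈ A, x ∉ R → (∃ u ∈ R, E x u) → ∃ s ∈ S, E x s) :
    PP E A (R ∪ S) := by
  intro x hx y hy hxR hyR hxu hyv
  have key : ∀ z ∈ A, z ∉ R ∪ S → (∃ u ∈ R ∪ S, E z u) → ∃ s ∈ S, E z s := by
    intro z hz hzR hzu
    obtain ⟨u, hu, hzu⟩ := hzu
    rcases Finset.mem_union.mp hu with hu | hu
    · exact hb z hz (fun h => hzR (Finset.mem_union_left _ h)) ⟨u, hu, hzu⟩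
    · exact ⟨u, hu, hzu⟩
  obtain ⟨s, hs, hxs⟩ := key x hx hxR hxu
  obtain ⟨t, ht, hyt⟩ := key y hy hyR hyv
  exact ⟨s, Finset.mem_union_right _ hs, t,
    comp_mono E Finset.subset_union_right s (hS s hs t ht), hE _ _ hxs, hE _ _ hyt⟩

/-- a path that is avoidable inside `sub E A R` but not inside `A` can be shifted away from a
boundary vertex of `R` -/
theorem advance (E : V → V → Prop) (hE : ∀ a b, E a b → E b a) (A R : Finset V)
    (hA : ∀ v ∈ A, ¬ E v v) (hR : R ⊆ A) (hP : PP E A R) (l : List V) (hl : IndPath E l)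
    (hlA : ∀ v ∈ l, v ∈ sub E A R) (hg : GoodIn E (sub E A R) l) (hb : ¬ GoodIn E A l) :
    ∃ x ∈ A, x ∉ R ∧ (∃ u ∈ R, E x u) ∧ ∃ l', IndPath E l' ∧ Shift E l l' ∧
      ∀ v ∈ l', v ∈ sub E A (insert x R) := by
  unfold GoodIn at hb
  push Not at hb
  obtain ⟨x, y, hx, hy, hxy, hno⟩ := hb
  obtain ⟨⟨p, hp, hpx⟩, ⟨q, hq, hqy⟩⟩ := ends_adj E l hl.1 x y hxy
  have hxR : x ∉ R := fun h => ((mem_sub E A R p).mp (hlA p hp)).2.2 x h hpx
  have hyR : y ∉ R := fun h => ((mem_sub E A R q).mp (hlA q hq)).2.2 y h hqy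
  have hnot : ¬ ((∃ u ∈ R, E x u) ∧ (∃ u ∈ R, E y u)) := by
    rintro ⟨h1, h2⟩
    obtain ⟨u, hu, v, hv, h3, h4⟩ := hP x hx y hy hxR hyR h1 h2
    obtain ⟨o, ho1, ho2, ho3⟩ := closableF E hE R l hl.1 (by
      intro v hv
      refine ⟨hA v (hR hv), ?_⟩
      intro p hp
      have hp' := (mem_sub E A R p).mp (hlA p hp)
      refine ⟨?_, fun h => hp'.2.2 v hv (hE _ _ h)⟩
      rintro rfl
      exact hp'.2.1 hv) x y hxy u v hu hv h3 h4
    obtain ⟨v, hv, hvo⟩ := hno o ho1 (by
      intro v hv
      rcases ho2 v hv with h | h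
      · rcases List.mem_cons.mp h with rfl | h
        · exact hx
        · rcases List.mem_append.mp h with h | h
          · exact sub_subset E A R (hlA v h)
          · rw [List.mem_singleton] at h
            subst h
            exact hy
      · exact hR h)
    exact hvo (ho3 v hv)
  have hone : ¬ (x ∈ sub E A R ∧ y ∈ sub E A R) := by
    rintro ⟨h1, h2⟩
    obtain ⟨o, ho1, ho2, ho3⟩ := hg x y h1 h2 hxy
    obtain ⟨v, hv, hvo⟩ := hno o ho1 (fun v hv => sub_subset E A R (ho2 v hv))
    exact hvo (ho3 v hv)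
  by_cases h1 : ∃ u ∈ R, E x u
  · have h2 : ∀ u ∈ R, ¬ E y u := by
      intro u hu h
      exact hnot ⟨h1, ⟨u, hu, h⟩⟩
    obtain ⟨m1, m2, m3, m4⟩ := moveR E l hl.1 x y hxy
    refine ⟨x, hx, hxR, h1, _, m1, m2, ?_⟩
    intro v hv
    rw [mem_sub]
    have hv1 : v ∈ A ∧ v ∉ R ∧ ∀ u ∈ R, ¬ E v u := by
      rcases m3 v hv with rfl | h
      · exact ⟨hy, hyR, h2⟩
      · exact (mem_sub E A R v).mp (hlA v h)
    refine ⟨hv1.1, ?_, ?_⟩
    · intro h
      rcases Finset.mem_insert.mp h with rfl | h
      · exact (m4 v hv).1 rfl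
      · exact hv1.2.1 h
    · intro u hu
      rcases Finset.mem_insert.mp hu with rfl | hu
      · exact fun h => (m4 v hv).2 (hE _ _ h)
      · exact hv1.2.2 u hu
  · have h1' : ∀ u ∈ R, ¬ E x u := fun u hu h => h1 ⟨u, hu, h⟩
    have hxs : x ∈ sub E A R := (mem_sub E A R x).mpr ⟨hx, hxR, h1'⟩
    have h2 : ∃ u ∈ R, E y u := by
      by_contra h2
      apply hone
      refine ⟨hxs, (mem_sub E A R y).mpr ⟨hy, hyR, fun u hu h => h2 ⟨u, hu, h⟩⟩⟩
    obtain ⟨l', m1, m2, m3, m4⟩ := moveL E l hl.1 x y hxy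
    refine ⟨y, hy, hyR, h2, l', m1, m2, ?_⟩
    intro v hv
    rw [mem_sub]
    have hv1 : v ∈ A ∧ v ∉ R ∧ ∀ u ∈ R, ¬ E v u := by
      rcases m3 v hv with rfl | h
      · exact ⟨hx, hxR, h1'⟩
      · exact (mem_sub E A R v).mp (hlA v h)
    refine ⟨hv1.1, ?_, ?_⟩
    · intro h
      rcases Finset.mem_insert.mp h with rfl | h
      · exact (m4 v hv).1 rfl
      · exact hv1.2.1 h
    · intro u hu
      rcases Finset.mem_insert.mp hu with rfl | hu
      · exact fun h => (m4 v hv).2 (hE _ _ h)
      · exact hv1.2.2 u hu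

end Pool.Agent.Helper4AV
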