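import Pool.Agent.Helper4AV.Base

/-!
From every induced path one reaches, by a number of shifts bounded by `(k + 1) (n + 1) ^ (m - 1)`,
an induced path that is avoidable or misses a given set of vertices with independence number at
most `m`.
-/

namespace Pool.Agent.Helper4AV

open Finset Classical Pool.Agent.AvoidPath

set_option linter.unusedSectionVars false

variable {V : Type} [Fintype V]

/-- within `i` shifts: an avoidable path, or a path that is free from a vertex of `D`, or a path
whose last `i` vertices are outside `D` -/
theorem stage1 (E : V → V → Prop) (A D : Finset V)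
    (l : List V) (hl : IndPath E l) (hlA : ∀ v ∈ l, v ∈ A) : ∀ i, i ≤ l.length →
    ∃ j l', Rch E A j l l' ∧ j ≤ i ∧ (GoodIn E A l' ∨
      (∃ x ∈ A, x ∈ D ∧ ∀ v ∈ l', x ≠ v ∧ ¬ E x v) ∨
      ∃ a b, l' = a ++ b ∧ b.length = i ∧ ∀ v ∈ b, v ∉ D) := by
  intro i
  induction i with
  | zero =>
    intro _
    exact ⟨0, l, Rch.refl l, le_refl _, Or.inr (Or.inr ⟨l, [], by simp, rfl, by simp⟩)⟩
  | succ i ih =>
    intro hi
    obtain ⟨j, l', h1, h2, h3⟩ := ih (by omega)
    have h4 := h1.ind hl hlA
    have h5 := h1.length
    rcases h3 with h3 | h3 | ⟨a, b, rfl, hb, hbD⟩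
    · exact ⟨j, l', h1, by omega, Or.inl h3⟩
    · exact ⟨j, l', h1, by omega, Or.inr (Or.inl h3)⟩
    · by_cases hg : GoodIn E A (a ++ b)
      · exact ⟨j, a ++ b, h1, by omega, Or.inl hg⟩
      · unfold GoodIn at hg
        push Not at hg
        obtain ⟨x, y, hx, hy, hxy, _⟩ := hg
        by_cases hyD : y ∈ D
        · obtain ⟨l'', m1, m2, m3, m4⟩ := moveL E (a ++ b) h4.1.1 x y hxy
          have m5 : ∀ v ∈ l'', v ∈ A := by
            intro v hv
            rcases m3 v hv with rfl | h
            · exact hx
            · exact h4.2 v h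
          exact ⟨j + 1, l'', h1.trans (Rch.single m2 m1 m5), by omega,
            Or.inr (Or.inl ⟨y, hy, hyD, m4⟩)⟩
        · obtain ⟨m1, m2, m3, m4⟩ := moveR E (a ++ b) h4.1.1 x y hxy
          have m5 : ∀ v ∈ (a ++ b).tail ++ [y], v ∈ A := by
            intro v hv
            rcases m3 v hv with rfl | h
            · exact hy
            · exact h4.2 v h
          have ha : a ≠ [] := by
            rintro rfl
            simp only [List.nil_append] at h5
            omega
          obtain ⟨p, a', rfl⟩ := List.exists_cons_of_ne_nil ha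
          refine ⟨j + 1, _, h1.trans (Rch.single m2 m1 m5), by omega,
            Or.inr (Or.inr ⟨a', b ++ [y], by simp, by simp [hb], ?_⟩)⟩
          intro v hv
          rcases List.mem_append.mp hv with hv | hv
          · exact hbD v hv
          · rw [List.mem_singleton] at hv
            subst hv
            exact hyD

theorem sub_insert_mem (E : V → V → Prop) (A R : Finset V) (x v : V)
    (h : v ∈ sub E A (insert x R)) : v ∈ sub E A R ∧ v ≠ x ∧ ¬ E v x := by
  rw [mem_sub] at h
  refine ⟨(mem_sub E A R v).mpr ⟨h.1, fun h' => h.2.1 (Finset.mem_insert_of_mem h'),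
    fun u hu => h.2.2 u (Finset.mem_insert_of_mem hu)⟩, ?_, h.2.2 x (Finset.mem_insert_self _ _)⟩
  rintro rfl
  exact h.2.1 (Finset.mem_insert_self _ _)

/-- the hitting lemma -/
theorem hit (E : V → V → Prop) (hE : ∀ a b, E a b → E b a) (k : ℕ) : ∀ (m : ℕ) (A D : Finset V),
    (∀ v ∈ A, ¬ E v v) →
    (∀ I ⊆ A ∩ D, (∀ a ∈ I, ∀ b ∈ I, ¬ E a b) → I.card ≤ m + 1) →
    ∀ l : List V, IndPath E l → l.length = k → (∀ v ∈ l, v ∈ A) →
    ∃ j l', Rch E A j l l' ∧ (GoodIn E A l' ∨ ∀ v ∈ l', v ∉ D) ∧
      j + 1 ≤ (k + 1) * (Fintype.card V + 1) ^ m := by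
  intro m
  induction m with
  | zero =>
    intro A D hA hD l hl hk hlA
    obtain ⟨j, l', h1, h2, h3⟩ := stage1 E A D l hl hlA k (by omega)
    have h4 := h1.ind hl hlA
    have h5 := h1.length
    refine ⟨j, l', h1, ?_, by simp; omega⟩
    rcases h3 with h3 | ⟨x, hx, hxD, h3⟩ | ⟨a, b, rfl, hb, hbD⟩
    · exact Or.inl h3
    · right
      intro v hv hvD
      have h6 := hD {x, v} (by
        intro u hu
        rcases Finset.mem_insert.mp hu with rfl | hu
        · exact Finset.mem_inter.mpr ⟨hx, hxD⟩
        · rw [Finset.mem_singleton] at hu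
          subst hu
          exact Finset.mem_inter.mpr ⟨h4.2 _ hv, hvD⟩) (by
        intro u hu w hw
        rcases Finset.mem_insert.mp hu with rfl | hu
        · rcases Finset.mem_insert.mp hw with rfl | hw
          · exact hA _ hx
          · rw [Finset.mem_singleton] at hw
            subst hw
            exact (h3 _ hv).2
        · rw [Finset.mem_singleton] at hu
          subst hu
          rcases Finset.mem_insert.mp hw with rfl | hw
          · exact fun h => (h3 _ hv).2 (hE _ _ h)
          · rw [Finset.mem_singleton] at hw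
            subst hw
            exact hA _ (h4.2 _ hv))
      rw [Finset.card_pair (h3 v hv).1] at h6
      omega
    · right
      have ha : a = [] := by
        rw [List.length_append] at h5
        have : a.length = 0 := by omega
        exact List.eq_nil_of_length_eq_zero this
      subst ha
      simpa using hbD
  | succ m ih =>
    intro A D hA hD l hl hk hlA
    set B := (k + 1) * (Fintype.card V + 1) ^ m with hB
    have hBpos : k + 1 ≤ B := by
      rw [hB]
      exact Nat.le_mul_of_pos_right _ (pow_pos (by omega) _)
    -- the phases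
    have phases : ∀ s : ℕ, ∀ (R : Finset V) (l : List V), Fintype.card V - R.card = s →
        R ⊆ A → PP E A R → (∃ x ∈ R, x ∈ D) → IndPath E l → l.length = k →
        (∀ v ∈ l, v ∈ sub E A R) →
        ∃ j l', Rch E A j l l' ∧ (GoodIn E A l' ∨ ∀ v ∈ l', v ∉ D) ∧ j ≤ s * B := by
      intro s
      induction s with
      | zero =>
        intro R l hs hR hP hx hl hk hlA
        exfalso
        have h1 : Fintype.card V ≤ R.card := by omega
        have h2 : R = Finset.univ := by
          apply Finset.eq_univ_of_card
          exact le_antisymm (Finset.card_le_univ _) h1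
        obtain ⟨p, l₀, rfl⟩ := List.exists_cons_of_ne_nil hl.1
        have h3 := (mem_sub E A R p).mp (hlA p (by simp))
        exact h3.2.1 (by rw [h2]; exact Finset.mem_univ _)
      | succ s ihs =>
        intro R l hs hR hP hx hl hk hlA
        obtain ⟨x, hxR, hxD⟩ := hx
        obtain ⟨j, l', h1, h2, h3⟩ := ih (sub E A R) D
          (fun v hv => hA v (sub_subset E A R hv)) (by
            intro I hI hind
            have hxI : x ∉ I := by
              intro h
              have := (mem_sub E A R x).mp (Finset.mem_inter.mp (hI h)).1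
              exact this.2.1 hxR
            have h4 := hD (insert x I) (by
              intro u hu
              rcases Finset.mem_insert.mp hu with rfl | hu
              · exact Finset.mem_inter.mpr ⟨hR hxR, hxD⟩
              · have := Finset.mem_inter.mp (hI hu)
                exact Finset.mem_inter.mpr ⟨sub_subset E A R this.1, this.2⟩) (by
              intro u hu w hw
              rcases Finset.mem_insert.mp hu with hu' | hu'
              · rcases Finset.mem_insert.mp hw with hw' | hw'
                · rw [hu', hw']
                  exact hA _ (hR hxR)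
                · have := (mem_sub E A R w).mp (Finset.mem_inter.mp (hI hw')).1
                  rw [hu']
                  exact fun h => this.2.2 _ hxR (hE _ _ h)
              · rcases Finset.mem_insert.mp hw with hw' | hw'
                · have := (mem_sub E A R u).mp (Finset.mem_inter.mp (hI hu')).1
                  rw [hw']
                  exact this.2.2 _ hxR
                · exact hind u hu' w hw')
            rw [Finset.card_insert_of_notMem hxI] at h4
            omega) l hl hk hlA
        have h4 := h1.ind hl hlA
        have h5 := h1.length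
        have h1' : Rch E A j l l' := h1.mono (sub_subset E A R)
        have hsB : (s + 1) * B = s * B + B := by ring
        rcases h2 with h2 | h2
        · by_cases hg : GoodIn E A l'
          · exact ⟨j, l', h1', Or.inl hg, by omega⟩
          · obtain ⟨w, hw, hwR, hwu, l'', m1, m2, m3⟩ :=
              advance E hE A R hA hR hP l' h4.1 h4.2 h2 hg
            obtain ⟨j', l3, h6, h7, h8⟩ := ihs (insert w R) l'' (by
                rw [Finset.card_insert_of_notMem hwR]
                omega) (by
                intro u hu
                rcases Finset.mem_insert.mp hu with rfl | hu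
                · exact hw
                · exact hR hu) (pp_insert E hE A R hP w hw hwR hwu)
              ⟨x, Finset.mem_insert_of_mem hxR, hxD⟩ m1 (by rw [shift_length m2]; omega) m3
            have m4 : ∀ v ∈ l'', v ∈ A := fun v hv => sub_subset E A _ (m3 v hv)
            exact ⟨j + 1 + j', l3, (h1'.trans (Rch.single m2 m1 m4)).trans h6, h7, by omega⟩
        · exact ⟨j, l', h1', Or.inr h2, by omega⟩
    obtain ⟨j, l', h1, h2, h3⟩ := stage1 E A D l hl hlA k (by omega)
    have h4 := h1.ind hl hlA
    have h5 := h1.length
    have hpow : (k + 1) * (Fintype.card V + 1) ^ (m + 1) = Fintype.card V * B + B := by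
      rw [hB, pow_succ]
      ring
    rcases h3 with h3 | ⟨x, hx, hxD, h3⟩ | ⟨a, b, rfl, hb, hbD⟩
    · exact ⟨j, l', h1, Or.inl h3, by omega⟩
    · obtain ⟨j', l'', h6, h7, h8⟩ := phases (Fintype.card V - 1) {x} l' (by simp) (by
          simpa using hx) (by
          intro a ha b hb haR hbR hau hbu
          obtain ⟨u, hu, hau⟩ := hau
          obtain ⟨w, hw, hbw⟩ := hbu
          rw [Finset.mem_singleton] at hu hw
          rw [hu] at hau
          rw [hw] at hbw
          exact ⟨x, by simp, x, mem_comp_self E _ (by simp), hE _ _ hau, hE _ _ hbw⟩)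
        ⟨x, by simp, hxD⟩ h4.1 (by omega) (by
          intro v hv
          rw [mem_sub]
          refine ⟨h4.2 v hv, ?_, ?_⟩
          · intro h
            rw [Finset.mem_singleton] at h
            exact (h3 v hv).1 h.symm
          · intro u hu
            rw [Finset.mem_singleton] at hu
            subst hu
            exact fun h => (h3 v hv).2 (hE _ _ h))
      refine ⟨j + j', l'', h1.trans h6, h7, ?_⟩
      have hcard : 1 ≤ Fintype.card V := Fintype.card_pos_iff.mpr ⟨x⟩
      have h9 : (Fintype.card V - 1) * B + B = Fintype.card V * B := by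
        obtain ⟨c, hc⟩ : ∃ c, Fintype.card V = c + 1 := ⟨Fintype.card V - 1, by omega⟩
        rw [hc]
        simp
        ring
      omega
    · refine ⟨j, _, h1, Or.inr ?_, by omega⟩
      have ha : a = [] := by
        rw [List.length_append] at h5
        have : a.length = 0 := by omega
        exact List.eq_nil_of_length_eq_zero this
      subst ha
      simpa using hbD

/-- if every round of at most `B` shifts enlarges the free set, then `n B` shifts suffice -/
theorem rounds (E : V → V → Prop) (k B : ℕ) (A : Finset V)
    (hround : ∀ (R : Finset V) (l : List V), R ⊆ A → PP E A R → IndPath E l → l.length = k →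
      (∀ v ∈ l, v ∈ sub E A R) → ∃ j l', Rch E A j l l' ∧ j ≤ B ∧
        (GoodIn E A l' ∨ ∃ R' ⊆ A, R.card < R'.card ∧ PP E A R' ∧ ∀ v ∈ l', v ∈ sub E A R')) :
    ∀ (s : ℕ) (R : Finset V) (l : List V), Fintype.card V - R.card = s → R ⊆ A → PP E A R →
      IndPath E l → l.length = k → (∀ v ∈ l, v ∈ sub E A R) →
      ∃ j l', Rch E A j l l' ∧ GoodIn E A l' ∧ j ≤ s * B := by
  intro s
  induction s using Nat.strong_induction_on with
  | _ s ih =>
    intro R l hs hR hP hl hk hlA
    have hlt : R.card < Fintype.card V := by
      obtain ⟨p, l₀, rfl⟩ := List.exists_cons_of_ne_nil hl.1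
      have h3 := (mem_sub E A R p).mp (hlA p (by simp))
      exact Finset.card_lt_univ_of_notMem h3.2.1
    obtain ⟨j, l', h1, h2, h3⟩ := hround R l hR hP hl hk hlA
    have hlA' : ∀ v ∈ l, v ∈ A := fun v hv => sub_subset E A R (hlA v hv)
    have h4 := h1.ind hl hlA'
    have h5 := h1.length
    obtain ⟨s', hs'⟩ : ∃ s', s = s' + 1 := ⟨s - 1, by omega⟩
    have hsB : (s' + 1) * B = s' * B + B := by ring
    rcases h3 with h3 | ⟨R', hR', hc, hP', h6⟩
    · exact ⟨j, l', h1, h3, by rw [hs', hsB]; omega⟩
    · obtain ⟨j', l'', h7, h8, h9⟩ := ih (Fintype.card V - R'.card) (by omega) R' l' rfl hR' hP'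
        h4.1 (by omega) h6
      refine ⟨j + j', l'', h1.trans h7, h8, ?_⟩
      have h10 : (Fintype.card V - R'.card) * B ≤ s' * B := Nat.mul_le_mul_right _ (by omega)
      rw [hs', hsB]
      omega

/-- the loopless vertices -/
noncomputable def loopless (E : V → V → Prop) : Finset V := Finset.univ.filter (fun v => ¬ E v v)

theorem indPath_loopless (E : V → V → Prop) (l : List V) (h : IndPath E l) :
    ∀ v ∈ l, v ∈ loopless E := by
  intro v hv
  obtain ⟨i, hi, rfl⟩ := List.getElem_of_mem hv
  refine Finset.mem_filter.mpr ⟨Finset.mem_univ _, ?_⟩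
  intro hc
  have := (h.2.2 i i hi hi).mp hc
  omega

theorem avoidable_of_good (E : V → V → Prop) (l : List V) (hl : IndPath E l)
    (h : GoodIn E (loopless E) l) : Avoidable E l := by
  refine ⟨hl, ?_⟩
  intro x y hxy
  have h1 := indPath_loopless E _ hxy
  obtain ⟨o, ho1, _, ho3⟩ := h x y (h1 x (by simp)) (h1 y (by simp)) hxy
  exact ⟨o, ho1, ho3⟩

/-- from rounds to the bound for shift sequences -/
theorem rounds_main (E : V → V → Prop) (B : ℕ) (l : List V) (hl : IndPath E l)
    (hround : ∀ (R : Finset V) (l' : List V), R ⊆ loopless E → PP E (loopless E) R →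
      IndPath E l' → l'.length = l.length →
      (∀ v ∈ l', v ∈ sub E (loopless E) R) → ∃ j l'', Rch E (loopless E) j l' l'' ∧ j ≤ B ∧
        (GoodIn E (loopless E) l'' ∨ ∃ R' ⊆ loopless E, R.card < R'.card ∧
          PP E (loopless E) R' ∧ ∀ v ∈ l'', v ∈ sub E (loopless E) R')) :
    ∃ m l', ShiftSeq E m l l' ∧ Avoidable E l' ∧ m ≤ Fintype.card V * B := by
  have hlA := indPath_loopless E l hl
  obtain ⟨j, l', h1, h2, h3⟩ := rounds E l.length B (loopless E) hround (Fintype.card V) ∅ l
    (by simp) (by simp) (by
      intro x _ y _ _ _ hu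
      obtain ⟨u, hu, _⟩ := hu
      exact absurd hu (Finset.notMem_empty _)) hl rfl (by
      intro v hv
      rw [mem_sub]
      exact ⟨hlA v hv, Finset.notMem_empty _, fun u hu => absurd hu (Finset.notMem_empty _)⟩)
  exact ⟨j, l', h1.toSeq, avoidable_of_good E l' (h1.ind hl hlA).1 h2, h3⟩

end Pool.Agent.Helper4AV
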