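import Pool.Agent.Helper4AV.Hit

/-!
A polynomial bound for shift sequences in graphs without an induced star with `t` leaves.
-/

namespace Pool.Agent.Helper4AV

open Finset Classical Pool.Agent.AvoidPath

set_option linter.unusedSectionVars false

variable {V : Type} [Fintype V]

/-- outcome of a round -/
def Out (E : V → V → Prop) (A R : Finset V) (B : ℕ) (l : List V) : Prop :=
  ∃ j l', Rch E A j l l' ∧ j ≤ B ∧
    (GoodIn E A l' ∨ ∃ R' ⊆ A, R.card < R'.card ∧ PP E A R' ∧ ∀ v ∈ l', v ∈ sub E A R')

/-- a round that reaches a path which is avoidable inside `sub E A R` -/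
theorem out_good (E : V → V → Prop) (hE : ∀ a b, E a b → E b a) (A R : Finset V)
    (hA : ∀ v ∈ A, ¬ E v v) (hR : R ⊆ A) (hP : PP E A R) (B : ℕ) (l : List V)
    (hl : IndPath E l) (hlA : ∀ v ∈ l, v ∈ sub E A R) (j : ℕ) (l' : List V)
    (h : Rch E (sub E A R) j l l') (hg : GoodIn E (sub E A R) l') (hj : j + 1 ≤ B) :
    Out E A R B l := by
  have h4 := h.ind hl hlA
  have h1' : Rch E A j l l' := h.mono (sub_subset E A R)
  by_cases hg' : GoodIn E A l'
  · exact ⟨j, l', h1', by omega, Or.inl hg'⟩
  · obtain ⟨w, hw, hwR, hwu, l'', m1, m2, m3⟩ := advance E hE A R hA hR hP l' h4.1 h4.2 hg hg'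
    refine ⟨j + 1, l'', h1'.trans (Rch.single m2 m1 (fun v hv => sub_subset E A _ (m3 v hv))),
      by omega, Or.inr ⟨insert w R, ?_, ?_, pp_insert E hE A R hP w hw hwR hwu, m3⟩⟩
    · intro u hu
      rcases Finset.mem_insert.mp hu with rfl | hu
      · exact hw
      · exact hR hu
    · rw [Finset.card_insert_of_notMem hwR]
      omega

/-- a round that reaches a path which is free from a boundary vertex -/
theorem out_unlock (E : V → V → Prop) (hE : ∀ a b, E a b → E b a) (A R : Finset V)
    (hR : R ⊆ A) (hP : PP E A R) (B : ℕ) (l : List V)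
    (hl : IndPath E l) (hlA : ∀ v ∈ l, v ∈ sub E A R) (j : ℕ) (l' : List V)
    (h : Rch E (sub E A R) j l l') (w : V) (hw : w ∈ A) (hwR : w ∉ R) (hwu : ∃ u ∈ R, E w u)
    (hwl : ∀ v ∈ l', ¬ E w v) (hj : j ≤ B) : Out E A R B l := by
  have h4 := h.ind hl hlA
  refine ⟨j, l', h.mono (sub_subset E A R), hj, Or.inr ⟨insert w R, ?_, ?_,
    pp_insert E hE A R hP w hw hwR hwu, ?_⟩⟩
  · intro u hu
    rcases Finset.mem_insert.mp hu with rfl | hu
    · exact hw
    · exact hR hu
  · rw [Finset.card_insert_of_notMem hwR]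
    omega
  · intro v hv
    have h5 := (mem_sub E A R v).mp (h4.2 v hv)
    rw [mem_sub]
    refine ⟨h5.1, ?_, ?_⟩
    · intro h6
      rcases Finset.mem_insert.mp h6 with rfl | h6
      · obtain ⟨u, hu, hwu⟩ := hwu
        exact h5.2.2 u hu hwu
      · exact h5.2.1 h6
    · intro u hu
      rcases Finset.mem_insert.mp hu with rfl | hu
      · exact fun h => hwl v hv (hE _ _ h)
      · exact h5.2.2 u hu

/-- a round when `R` has no boundary -/
theorem out_noboundary (E : V → V → Prop) (hE : ∀ a b, E a b → E b a) (A R : Finset V)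
    (hA : ∀ v ∈ A, ¬ E v v) (hR : R ⊆ A) (B : ℕ) (hB : 1 ≤ B) (l : List V)
    (hl : IndPath E l) (hlA : ∀ v ∈ l, v ∈ sub E A R)
    (hno : ∀ x ∈ A, x ∉ R → ∀ u ∈ R, ¬ E x u) : Out E A R B l := by
  have hlA' : ∀ v ∈ l, v ∈ A := fun v hv => sub_subset E A R (hlA v hv)
  by_cases hg : GoodIn E A l
  · exact ⟨0, l, Rch.refl l, by omega, Or.inl hg⟩
  · unfold GoodIn at hg
    push Not at hg
    obtain ⟨x, y, hx, hy, hxy, _⟩ := hg
    obtain ⟨⟨p, hp, hpx⟩, ⟨q, hq, hqy⟩⟩ := ends_adj E l hl.1 x y hxy
    have hxR : x ∉ R := fun h => ((mem_sub E A R p).mp (hlA p hp)).2.2 x h hpx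
    have hyR : y ∉ R := fun h => ((mem_sub E A R q).mp (hlA q hq)).2.2 y h hqy
    obtain ⟨l', m1, m2, m3, m4⟩ := moveL E l hl.1 x y hxy
    have m5 : ∀ v ∈ l', v ∈ A ∧ v ∉ R ∧ ∀ u ∈ R, ¬ E v u := by
      intro v hv
      rcases m3 v hv with rfl | h
      · exact ⟨hx, hxR, hno v hx hxR⟩
      · exact (mem_sub E A R v).mp (hlA v h)
    refine ⟨1, l', Rch.single m2 m1 (fun v hv => (m5 v hv).1), hB, Or.inr
      ⟨R ∪ {y}, ?_, ?_, ?_, ?_⟩⟩
    · intro u hu
      rcases Finset.mem_union.mp hu with hu | hu
      · exact hR hu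
      · rw [Finset.mem_singleton] at hu
        rw [hu]
        exact hy
    · apply Finset.card_lt_card
      refine ⟨Finset.subset_union_left, ?_⟩
      intro h
      exact hyR (h (by simp))
    · apply pp_build E hE A R {y}
      · intro a ha b hb
        rw [Finset.mem_singleton] at ha hb
        rw [ha, hb]
        exact mem_comp_self E _ (by simp)
      · intro z hz hzR hzu
        obtain ⟨u, hu, hzu⟩ := hzu
        exact absurd hzu (hno z hz hzR u hu)
    · intro v hv
      have h5 := m5 v hv
      rw [mem_sub]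
      refine ⟨h5.1, ?_, ?_⟩
      · intro h6
        rcases Finset.mem_union.mp h6 with h6 | h6
        · exact h5.2.1 h6
        · rw [Finset.mem_singleton] at h6
          exact (m4 v hv).1 h6.symm
      · intro u hu
        rcases Finset.mem_union.mp hu with hu | hu
        · exact h5.2.2 u hu
        · rw [Finset.mem_singleton] at hu
          rw [hu]
          exact fun h => (m4 v hv).2 (hE _ _ h)

theorem starFree_main (E : V → V → Prop) (hE : ∀ a b, E a b → E b a) (t : ℕ) (ht : 3 ≤ t)
    (hstar : ¬ ∃ (c : V) (S : Finset V), S.card = t ∧ ¬ E c c ∧ (∀ s ∈ S, E c s) ∧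
      ∀ s ∈ S, ∀ s' ∈ S, ¬ E s s')
    (l : List V) (hl : IndPath E l) :
    ∃ m l', ShiftSeq E m l l' ∧ Avoidable E l' ∧
      m ≤ (l.length + 1) * (Fintype.card V + 1) ^ (t - 2) := by
  obtain ⟨m, rfl⟩ : ∃ m, t = m + 3 := ⟨t - 3, by omega⟩
  set B := (l.length + 1) * (Fintype.card V + 1) ^ m with hB
  have hBpos : l.length + 1 ≤ B := by
    rw [hB]
    exact Nat.le_mul_of_pos_right _ (pow_pos (by omega) _)
  have hAll : ∀ v ∈ loopless E, ¬ E v v := fun v hv => (Finset.mem_filter.mp hv).2
  obtain ⟨s, l', h1, h2, h3⟩ := rounds_main E B l hl (by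
    intro R l' hR hP hl' hlen hlA
    by_cases hw : ∃ w ∈ loopless E, w ∉ R ∧ ∃ u ∈ R, E w u
    · obtain ⟨w, hw, hwR, hwu⟩ := hw
      obtain ⟨u, hu, hwu'⟩ := hwu
      obtain ⟨j, l'', h1, h2, h3⟩ := hit E hE l.length m (sub E (loopless E) R)
        (Finset.univ.filter (fun v => E w v)) (fun v hv => hAll v (sub_subset E _ R hv)) (by
          intro I hI hind
          by_contra hcard
          obtain ⟨I', hI', hcard'⟩ := Finset.exists_subset_card_eq (s := I) (n := m + 2) (by omega)
          have hmem : ∀ v ∈ I', v ∈ sub E (loopless E) R ∧ E w v := by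
            intro v hv
            have := Finset.mem_inter.mp (hI (hI' hv))
            exact ⟨this.1, (Finset.mem_filter.mp this.2).2⟩
          have huI : u ∉ I' := by
            intro h
            exact ((mem_sub E _ R u).mp (hmem u h).1).2.1 hu
          apply hstar
          refine ⟨w, insert u I', ?_, hAll w hw, ?_, ?_⟩
          · rw [Finset.card_insert_of_notMem huI, hcard']
          · intro v hv
            rcases Finset.mem_insert.mp hv with hv' | hv'
            · rw [hv']
              exact hwu'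
            · exact (hmem v hv').2
          · intro a ha b hb
            rcases Finset.mem_insert.mp ha with ha' | ha'
            · rcases Finset.mem_insert.mp hb with hb' | hb'
              · rw [ha', hb']
                exact hAll u (hR hu)
              · rw [ha']
                exact fun h => ((mem_sub E _ R b).mp (hmem b hb').1).2.2 u hu (hE _ _ h)
            · rcases Finset.mem_insert.mp hb with hb' | hb'
              · rw [hb']
                exact ((mem_sub E _ R a).mp (hmem a ha').1).2.2 u hu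
              · exact hind a (hI' ha') b (hI' hb')) l' hl' hlen hlA
      rcases h2 with h2 | h2
      · exact out_good E hE _ R hAll hR hP B l' hl' hlA j l'' h1 h2 h3
      · exact out_unlock E hE _ R hR hP B l' hl' hlA j l'' h1 w hw hwR ⟨u, hu, hwu'⟩ (by
          intro v hv h
          exact h2 v hv (Finset.mem_filter.mpr ⟨Finset.mem_univ _, h⟩)) (by omega)
    · exact out_noboundary E hE _ R hAll hR B (by omega) l' hl' hlA (by
        intro x hx hxR u hu h
        exact hw ⟨x, hx, hxR, u, hu, h⟩))
  refine ⟨s, l', h1, h2, le_trans h3 ?_⟩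
  have e : m + 3 - 2 = m + 1 := by omega
  rw [e, pow_succ, hB]
  calc Fintype.card V * ((l.length + 1) * (Fintype.card V + 1) ^ m)
      ≤ (Fintype.card V + 1) * ((l.length + 1) * (Fintype.card V + 1) ^ m) :=
        Nat.mul_le_mul_right _ (by omega)
    _ = (l.length + 1) * ((Fintype.card V + 1) ^ m * (Fintype.card V + 1)) := by ring

end Pool.Agent.Helper4AV
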