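import Pool.Agent.Helper4AV.Star

/-!
Tree decompositions: pairwise touching connected sets are met by one bag.
-/

namespace Pool.Agent.Helper4AV

open Finset Classical Pool.Agent.AvoidPath

set_option linter.unusedSectionVars false

/-- `(T, bag)` is a tree decomposition of the graph with adjacency relation `E`: `T` is a tree,
every vertex and every edge lies in a bag, and a vertex that lies in the bags of `i` and `j` lies
in the bag of every node on the path of `T` from `i` to `j` -/
def TreeDec {V : Type} (E : V → V → Prop) {ι : Type} (T : SimpleGraph ι) (bag : ι → Set V) :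
    Prop :=
  T.IsTree ∧ (∀ v, ∃ i, v ∈ bag i) ∧ (∀ u v, E u v → ∃ i, u ∈ bag i ∧ v ∈ bag i) ∧
    ∀ (i j : ι) (p : T.Walk i j), p.IsPath → ∀ x ∈ p.support, ∀ v, v ∈ bag i → v ∈ bag j →
      v ∈ bag x

section tree

variable {ι : Type} (T : SimpleGraph ι)

/-- a set of nodes is convex -/
def Cvx (S : Set ι) : Prop :=
  ∀ i ∈ S, ∀ j ∈ S, ∀ p : T.Walk i j, p.IsPath → ∀ x ∈ p.support, x ∈ S

theorem path_eq (hT : T.IsTree) {i j : ι} (p q : T.Walk i j) (hp : p.IsPath) (hq : q.IsPath) :
    p = q := (hT.existsUnique_path i j).unique hp hq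

theorem gate (hT : T.IsTree) (r : ι) (S : Set ι) (hS : Cvx T S) (P : ∀ i, T.Walk r i)
    (hP : ∀ i, (P i).IsPath) (t : ι) (ht : t ∈ S) (hmin : ∀ i ∈ S, (P t).length ≤ (P i).length)
    (j : ι) (hj : j ∈ S) : t ∈ (P j).support := by
  obtain ⟨c, hc⟩ := (hT.existsUnique_path t j).exists
  have hpath : ((P t).append c).IsPath := by
    rw [SimpleGraph.Walk.isPath_def, SimpleGraph.Walk.support_append, List.nodup_append]
    refine ⟨(SimpleGraph.Walk.isPath_def _).mp (hP t), ?_, ?_⟩
    · exact ((SimpleGraph.Walk.isPath_def _).mp hc).sublist (List.tail_sublist _)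
    · intro x hx y hy hxy
      subst hxy
      have hxS : x ∈ S := hS t ht j hj c hc x (List.mem_of_mem_tail hy)
      have h1 : (P t).takeUntil x hx = P x := path_eq T hT _ _ ((hP t).takeUntil hx) (hP x)
      by_cases hxt : x = t
      · subst hxt
        have h2 := (SimpleGraph.Walk.isPath_def _).mp hc
        have h3 : c.support = x :: c.support.tail := (SimpleGraph.Walk.cons_tail_support c).symm
        rw [h3] at h2
        exact (List.nodup_cons.mp h2).1 hy
      · have h2 := SimpleGraph.Walk.length_takeUntil_lt_length hx hxt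
        rw [h1] at h2
        have h3 := hmin x hxS
        omega
  have h4 := path_eq T hT _ _ hpath (hP j)
  rw [← h4, SimpleGraph.Walk.mem_support_append_iff]
  exact Or.inl (SimpleGraph.Walk.end_mem_support _)

theorem helly {κ : Type} (ℱ : Finset κ) (hne : ℱ.Nonempty) (hT : T.IsTree) (S : κ → Set ι)
    (hS : ∀ a ∈ ℱ, Cvx T (S a)) (hn : ∀ a ∈ ℱ, (S a).Nonempty)
    (hpair : ∀ a ∈ ℱ, ∀ b ∈ ℱ, (S a ∩ S b).Nonempty) : ∃ t, ∀ a ∈ ℱ, t ∈ S a := by
  have hnon : Nonempty ι := by
    obtain ⟨a, ha⟩ := hne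
    obtain ⟨i, _⟩ := hn a ha
    exact ⟨i⟩
  obtain ⟨r⟩ := hnon
  choose P hP using fun i => (hT.existsUnique_path r i).exists
  have hex : ∀ a ∈ ℱ, ∃ t, t ∈ S a ∧ ∀ i ∈ S a, (P t).length ≤ (P i).length := by
    intro a ha
    have h1 : ∃ n : ℕ, ∃ i ∈ S a, (P i).length = n := by
      obtain ⟨i, hi⟩ := hn a ha
      exact ⟨_, i, hi, rfl⟩
    obtain ⟨t, ht, hlen⟩ := Nat.find_spec h1
    refine ⟨t, ht, ?_⟩
    intro i hi
    rw [hlen]
    exact Nat.find_min' h1 ⟨i, hi, rfl⟩
  have : Nonempty ι := ⟨r⟩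
  choose! g hg using hex
  obtain ⟨b, hb, hmax⟩ := Finset.exists_max_image ℱ (fun a => (P (g a)).length) hne
  refine ⟨g b, ?_⟩
  intro a ha
  obtain ⟨j, hja, hjb⟩ := hpair a ha b hb
  have h1 : g b ∈ (P j).support :=
    gate T hT r (S b) (hS b hb) P hP (g b) (hg b hb).1 (hg b hb).2 j hjb
  have h2 : g a ∈ (P j).support :=
    gate T hT r (S a) (hS a ha) P hP (g a) (hg a ha).1 (hg a ha).2 j hja
  rw [← SimpleGraph.Walk.take_spec (P j) h2, SimpleGraph.Walk.mem_support_append_iff] at h1
  have h6 : (P (g a)).length ≤ (P (g b)).length := hmax a ha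
  rcases h1 with h1 | h1
  · have h3 : (P j).takeUntil (g a) h2 = P (g a) :=
      path_eq T hT _ _ ((hP j).takeUntil h2) (hP _)
    rw [h3] at h1
    by_cases hne' : g b = g a
    · rw [hne']
      exact (hg a ha).1
    · have h4 := SimpleGraph.Walk.length_takeUntil_lt_length h1 hne'
      have h5 : (P (g a)).takeUntil (g b) h1 = P (g b) :=
        path_eq T hT _ _ ((hP _).takeUntil h1) (hP _)
      rw [h5] at h4
      omega
  · exact hS a ha (g a) (hg a ha).1 j hja _ ((hP j).dropUntil h2) _ h1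

end tree

variable {V : Type} [Fintype V]

/-- the nodes whose bag meets a connected set form a convex set -/
theorem cvx_nodes (E : V → V → Prop) {ι : Type} (T : SimpleGraph ι) (bag : ι → Set V)
    (h : TreeDec E T bag) (F : Finset V) (hF : ∀ a ∈ F, ∀ b ∈ F, b ∈ comp E F a) :
    Cvx T {i | ∃ v ∈ F, v ∈ bag i} := by
  obtain ⟨hT, hv, he, hc⟩ := h
  intro i hi j hj p hp x hx
  obtain ⟨a, ha, hai⟩ := hi
  obtain ⟨b, hb, hbj⟩ := hj
  have key : ∀ w, Relation.ReflTransGen (Rin E F) a w → ∀ (j : ι), w ∈ bag j →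
      ∀ p : T.Walk i j, p.IsPath → ∀ x ∈ p.support, ∃ v ∈ F, v ∈ bag x := by
    intro w hw
    induction hw with
    | refl =>
      intro j hj p hp x hx
      exact ⟨a, ha, hc i j p hp x hx a hai hj⟩
    | @tail b c h1 h2 ih =>
      intro j hj p hp x hx
      obtain ⟨i', hb', hc'⟩ := he b c h2.2.2
      obtain ⟨q, hq⟩ := (hT.existsUnique_path i i').exists
      obtain ⟨q', hq'⟩ := (hT.existsUnique_path i' j).exists
      have h3 : p = (q.append q').bypass :=
        path_eq T hT _ _ hp (SimpleGraph.Walk.bypass_isPath _)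
      have h4 : x ∈ (q.append q').support := by
        apply SimpleGraph.Walk.support_bypass_subset_support
        rw [← h3]
        exact hx
      rw [SimpleGraph.Walk.mem_support_append_iff] at h4
      rcases h4 with h4 | h4
      · exact ih i' hb' q hq x h4
      · exact ⟨c, h2.2.1, hc i' j q' hq' x h4 c hc' hj⟩
  exact key b (Finset.mem_filter.mp (hF a ha b hb)).2 j hbj p hp x hx

/-- one bag meets all members of a family of pairwise touching connected sets -/
theorem bag_hits (E : V → V → Prop) {ι : Type} (T : SimpleGraph ι) (bag : ι → Set V)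
    (h : TreeDec E T bag) (ℱ : Finset (Finset V)) (hne : ℱ.Nonempty)
    (hcon : ∀ F ∈ ℱ, ∀ a ∈ F, ∀ b ∈ F, b ∈ comp E F a)
    (htouch : ∀ F ∈ ℱ, ∀ F' ∈ ℱ, ∃ a ∈ F, ∃ b ∈ F', a = b ∨ E a b) :
    ∃ t, ∀ F ∈ ℱ, ∃ v ∈ F, v ∈ bag t := by
  have hmeet : ∀ F ∈ ℱ, ∀ F' ∈ ℱ,
      ({i | ∃ v ∈ F, v ∈ bag i} ∩ {i | ∃ v ∈ F', v ∈ bag i}).Nonempty := by
    intro F hF F' hF'
    obtain ⟨a, ha, b, hb, hab⟩ := htouch F hF F' hF'
    rcases hab with rfl | hab
    · obtain ⟨i, hi⟩ := h.2.1 a
      exact ⟨i, ⟨a, ha, hi⟩, ⟨a, hb, hi⟩⟩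
    · obtain ⟨i, hi1, hi2⟩ := h.2.2.1 a b hab
      exact ⟨i, ⟨a, ha, hi1⟩, ⟨b, hb, hi2⟩⟩
  exact helly T ℱ hne h.1 (fun F => {i | ∃ v ∈ F, v ∈ bag i})
    (fun F hF => cvx_nodes E T bag h F (hcon F hF))
    (fun F hF => by
      obtain ⟨i, hi, _⟩ := hmeet F hF F hF
      exact ⟨i, hi⟩) hmeet

/-- the vertex set of an induced path is connected -/
theorem indPath_conn (E : V → V → Prop) (hE : ∀ a b, E a b → E b a) (l : List V)
    (hl : IndPath E l) : ∀ a ∈ l.toFinset, ∀ b ∈ l.toFinset, b ∈ comp E l.toFinset a := by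
  have h0 : ∀ (i : ℕ) (hi : i < l.length), l[i] ∈ comp E l.toFinset (l[0]'(by omega)) := by
    intro i
    induction i with
    | zero =>
      intro hi
      exact mem_comp_self E _ (List.mem_toFinset.mpr (List.getElem_mem _))
    | succ i ih =>
      intro hi
      refine comp_trans E (ih (by omega)) (comp_adj E (List.mem_toFinset.mpr (List.getElem_mem _))
        (List.mem_toFinset.mpr (List.getElem_mem _)) ?_)
      exact (hl.2.2 i (i + 1) (by omega) hi).mpr (Or.inl rfl)
  intro a ha b hb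
  obtain ⟨i, hi, rfl⟩ := List.getElem_of_mem (List.mem_toFinset.mp ha)
  obtain ⟨j, hj, rfl⟩ := List.getElem_of_mem (List.mem_toFinset.mp hb)
  have h1 := comp_eq_of_mem E hE _ (h0 i hi)
  rw [h1]
  exact h0 j hj

theorem treeInd_main (E : V → V → Prop) (hE : ∀ a b, E a b → E b a) {ι : Type}
    (T : SimpleGraph ι) (bag : ι → Set V) (hT : TreeDec E T bag) (m : ℕ) (hm : 1 ≤ m)
    (hind : ∀ (i : ι) (I : Finset V), (∀ a ∈ I, a ∈ bag i) →
      (∀ a ∈ I, ∀ b ∈ I, ¬ E a b) → I.card ≤ m)
    (l : List V) (hl : IndPath E l) :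
    ∃ s l', ShiftSeq E s l l' ∧ Avoidable E l' ∧
      s ≤ (l.length + 1) * (Fintype.card V + 1) ^ m := by
  obtain ⟨m, rfl⟩ : ∃ m', m = m' + 1 := ⟨m - 1, by omega⟩
  set B := (l.length + 1) * (Fintype.card V + 1) ^ m with hB
  have hAll : ∀ v ∈ loopless E, ¬ E v v := fun v hv => (Finset.mem_filter.mp hv).2
  obtain ⟨s, l', h1, h2, h3⟩ := rounds_main E B l hl (by
    intro R l' hR hP hl' hlen hlA
    have hsub : ∀ v ∈ sub E (loopless E) R, ¬ E v v := fun v hv => hAll v (sub_subset E _ R hv)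
    -- the ball of radius `B - 1`
    by_cases hgood : ∃ j l'', Rch E (sub E (loopless E) R) j l' l'' ∧
        GoodIn E (sub E (loopless E) R) l'' ∧ j + 1 ≤ B
    · obtain ⟨j, l'', h1, h2, h3⟩ := hgood
      exact out_good E hE _ R hAll hR hP B l' hl' hlA j l'' h1 h2 h3
    · by_cases hfar : ∃ j₁ l₁ j₂ l₂, Rch E (sub E (loopless E) R) j₁ l' l₁ ∧ j₁ + 1 ≤ B ∧
          Rch E (sub E (loopless E) R) j₂ l' l₂ ∧ j₂ + 1 ≤ B ∧
          ∀ a ∈ l₁, ∀ b ∈ l₂, ¬ (a = b ∨ E a b)
      · obtain ⟨j₁, l₁, j₂, l₂, h1, h2, h3, h4, h5⟩ := hfar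
        have h6 := h1.ind hl' hlA
        have h7 := h3.ind hl' hlA
        by_cases hw : ∃ w ∈ loopless E, w ∉ R ∧ (∃ u ∈ R, E w u) ∧ ∀ v ∈ l₁, ¬ E w v
        · obtain ⟨w, hw1, hw2, hw3, hw4⟩ := hw
          exact out_unlock E hE _ R hR hP B l' hl' hlA j₁ l₁ h1 w hw1 hw2 hw3 hw4 (by omega)
        · -- build a new part of the free set
          refine ⟨j₂, l₂, h3.mono (sub_subset E _ R), by omega, Or.inr
            ⟨R ∪ l₁.toFinset, ?_, ?_, ?_, ?_⟩⟩
          · intro u hu
            rcases Finset.mem_union.mp hu with hu | hu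
            · exact hR hu
            · exact sub_subset E _ R (h6.2 u (List.mem_toFinset.mp hu))
          · apply Finset.card_lt_card
            refine ⟨Finset.subset_union_left, ?_⟩
            intro h
            obtain ⟨p, l₀, hp⟩ := List.exists_cons_of_ne_nil h6.1.1
            have hpl : p ∈ l₁ := by rw [hp]; simp
            exact ((mem_sub E _ R p).mp (h6.2 p hpl)).2.1
              (h (Finset.mem_union_right _ (List.mem_toFinset.mpr hpl)))
          · apply pp_build E hE _ R _ (indPath_conn E hE l₁ h6.1)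
            intro x hx hxR hxu
            by_contra hno
            apply hw
            refine ⟨x, hx, hxR, hxu, ?_⟩
            intro v hv hxv
            exact hno ⟨v, List.mem_toFinset.mpr hv, hxv⟩
          · intro v hv
            have h8 := (mem_sub E _ R v).mp (h7.2 v hv)
            rw [mem_sub]
            refine ⟨h8.1, ?_, ?_⟩
            · intro h
              rcases Finset.mem_union.mp h with h | h
              · exact h8.2.1 h
              · exact h5 v (List.mem_toFinset.mp h) v hv (Or.inl rfl)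
            · intro u hu
              rcases Finset.mem_union.mp hu with hu | hu
              · exact h8.2.2 u hu
              · exact fun h => h5 u (List.mem_toFinset.mp hu) v hv (Or.inr (hE _ _ h))
      · -- all paths of the ball touch pairwise: one bag meets them all
        exfalso
        set ℱ : Finset (Finset V) := Finset.univ.filter (fun F => ∃ j l'',
          Rch E (sub E (loopless E) R) j l' l'' ∧ j + 1 ≤ B ∧ F = l''.toFinset) with hℱ
        have hBpos : 1 ≤ B := by
          rw [hB]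
          exact Nat.one_le_iff_ne_zero.mpr (Nat.mul_ne_zero (by omega) (pow_ne_zero _ (by omega)))
        obtain ⟨t, ht⟩ := bag_hits E T bag hT ℱ
          ⟨l'.toFinset, Finset.mem_filter.mpr ⟨Finset.mem_univ _, 0, l', Rch.refl l', hBpos, rfl⟩⟩
          (by
            intro F hF
            obtain ⟨j, l'', h1, h2, rfl⟩ := (Finset.mem_filter.mp hF).2
            exact indPath_conn E hE l'' (h1.ind hl' hlA).1)
          (by
            intro F hF F' hF'
            obtain ⟨j₁, l₁, h1, h2, rfl⟩ := (Finset.mem_filter.mp hF).2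
            obtain ⟨j₂, l₂, h3, h4, rfl⟩ := (Finset.mem_filter.mp hF').2
            by_contra hcon
            apply hfar
            refine ⟨j₁, l₁, j₂, l₂, h1, h2, h3, h4, ?_⟩
            intro a ha b hb hab
            exact hcon ⟨a, List.mem_toFinset.mpr ha, b, List.mem_toFinset.mpr hb, hab⟩)
        obtain ⟨j, l'', h1, h2, h3⟩ := hit E hE l.length m (sub E (loopless E) R)
          (Finset.univ.filter (fun v => v ∈ bag t)) hsub (by
            intro I hI hindI
            exact hind t I (fun a ha =>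
              (Finset.mem_filter.mp (Finset.mem_inter.mp (hI ha)).2).2) hindI) l' hl' hlen hlA
        rcases h2 with h2 | h2
        · exact hgood ⟨j, l'', h1, h2, h3⟩
        · obtain ⟨v, hv, hvt⟩ := ht l''.toFinset
            (Finset.mem_filter.mpr ⟨Finset.mem_univ _, j, l'', h1, h3, rfl⟩)
          exact h2 v (List.mem_toFinset.mp hv) (Finset.mem_filter.mpr ⟨Finset.mem_univ _, hvt⟩))
  refine ⟨s, l', h1, h2, le_trans h3 ?_⟩
  rw [pow_succ, hB]
  calc Fintype.card V * ((l.length + 1) * (Fintype.card V + 1) ^ m)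
      ≤ (Fintype.card V + 1) * ((l.length + 1) * (Fintype.card V + 1) ^ m) :=
        Nat.mul_le_mul_right _ (by omega)
    _ = (l.length + 1) * ((Fintype.card V + 1) ^ m * (Fintype.card V + 1)) := by ring

end Pool.Agent.Helper4AV
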